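import Pool.Agent.Helper3.TCV.All10

/-!
The total chromatic number of every graph of large maximum degree `Δ` is at most `Δ + 3`.
-/

namespace Pool.Agent.Results.MP_aaba26_co.DeltaPlusThree

open Pool.TC

theorem result : ∃ D0 : ℕ, ∀ {V : Type*} [Fintype V] (G : SimpleGraph V) [DecidableRel G.Adj],
    D0 ≤ G.maxDegree →
    ∃ (c : V → Fin (G.maxDegree + 3)) (e : Sym2 V → Fin (G.maxDegree + 3)),
      IsTotalColouring G c e := by
  classical
  obtain ⟨D0, hD0⟩ := Pool.TCV.total_three
  refine ⟨D0, fun {V} _ G _ hD => hD0 G.maxDegree hD G ?_⟩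
  intro u
  have h := G.degree_le_maxDegree u
  rw [← SimpleGraph.card_neighborFinset_eq_degree] at h
  refine le_trans (le_of_eq ?_) h
  congr 1
  ext v
  simp

end Pool.Agent.Results.MP_aaba26_co.DeltaPlusThree
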