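import Pool.Agent.Helper83.TC.Total

/-!
The bound `Δ + 3` for the total chromatic number of every graph with at most `2Δ + 4` vertices, and
more generally of every graph with at most `2Δ + 4` vertices of degree larger than `(Δ + 2) / 2`.
-/

namespace Pool.Agent.Results.MP_aaba26_co.DenseGraphs

open Pool.TC

theorem result {V : Type*} [Fintype V] (G : SimpleGraph V) [DecidableRel G.Adj]
    (h : (Finset.univ.filter fun v => G.maxDegree + 2 < 2 * G.degree v).card ≤
      2 * G.maxDegree + 4) :
    ∃ (c : V → Fin (G.maxDegree + 3)) (e : Sym2 V → Fin (G.maxDegree + 3)),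
      IsTotalColouring G c e := by
  classical
  have hdeg : ∀ u, (Finset.univ.filter (fun v => G.Adj u v)).card = G.degree u := by
    intro u
    rw [← SimpleGraph.card_neighborFinset_eq_degree]
    congr 1
    ext v
    simp
  refine total_colouring G (d := G.maxDegree) ?_ ?_
  · intro u
    convert G.degree_le_maxDegree u using 1
    convert hdeg u
  · refine le_trans (le_of_eq ?_) (h.trans (le_of_eq (by ring)))
    congr 1
    ext u
    simp only [Finset.mem_filter, Finset.mem_univ, true_and]
    rw [← hdeg u]
    constructor
    · intro h1
      convert h1
    · intro h1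
      convert h1

end Pool.Agent.Results.MP_aaba26_co.DenseGraphs
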