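import Pool.Agent.Helper9.TF.Main

/-!
The bound `Δ + 3` for the total chromatic number of every graph (of any maximum degree `Δ`) whose
chromatic number and chromatic index have sum at most `Δ + 6`: hence of all 5-colourable graphs, and
of all 6-colourable graphs with chromatic index `Δ`. Only the vertices of degree larger than
`(Δ + 2) / 2` have to be coloured.
-/

namespace Pool.Agent.Results.MP_aaba26_co.FiveColourable

open Pool.TC

theorem result {V : Type*} [Fintype V] (G : SimpleGraph V) [DecidableRel G.Adj] (k q : ℕ)
    (hkq : k + q ≤ G.maxDegree + 6)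
    (hk : (G.induce {v | G.maxDegree + 2 < 2 * G.degree v}).Colorable k)
    (hq : ∃ f : Sym2 V → Fin q, ∀ u v w, G.Adj u v → G.Adj u w → v ≠ w → f s(u, v) ≠ f s(u, w)) :
    ∃ (c : V → Fin (G.maxDegree + 3)) (e : Sym2 V → Fin (G.maxDegree + 3)),
      IsTotalColouring G c e := by
  classical
  have hdeg : ∀ u, (Finset.univ.filter (fun v => G.Adj u v)).card = G.degree u := by
    intro u
    rw [← SimpleGraph.card_neighborFinset_eq_degree]
    congr 1
    ext v
    simp
  have key : ∀ k : ℕ, 0 < k → (G.induce {v | G.maxDegree + 2 < 2 * G.degree v}).Colorable k →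
      ∃ φ : V → Fin k, ∀ u ∈ Finset.univ.filter (fun v => G.maxDegree + 2 < 2 * G.degree v),
        ∀ v ∈ Finset.univ.filter (fun v => G.maxDegree + 2 < 2 * G.degree v),
          G.Adj u v → φ u ≠ φ v := by
    rintro k hk ⟨C⟩
    refine ⟨fun v => if h : G.maxDegree + 2 < 2 * G.degree v then C ⟨v, h⟩ else ⟨0, hk⟩, ?_⟩
    intro u hu v hv huv
    have hu' := (Finset.mem_filter.1 hu).2
    have hv' := (Finset.mem_filter.1 hv).2
    simp only [hu', hv', dif_pos]
    exact C.valid (show (G.induce {v | G.maxDegree + 2 < 2 * G.degree v}).Adj ⟨u, hu'⟩ ⟨v, hv'⟩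
      from huv)
  -- the number of edge colours is at least the maximum degree
  have hge : G.maxDegree ≤ q := by
    rcases isEmpty_or_nonempty V with hV | hV
    · have : G.maxDegree = 0 := by
        rw [← Nat.le_zero]
        exact G.maxDegree_le_of_forall_degree_le 0 (fun v => (hV.false v).elim)
      omega
    · obtain ⟨u, hu⟩ := G.exists_maximal_degree_vertex
      obtain ⟨f, hf⟩ := hq
      rw [hu, ← hdeg u]
      have h1 : (Finset.univ.filter (fun v => G.Adj u v)).card ≤
          (Finset.univ : Finset (Fin q)).card := by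
        refine Finset.card_le_card_of_injOn (fun v => f s(u, v)) (fun _ _ => Finset.mem_univ _) ?_
        intro v hv w hw hvw
        by_contra hne
        exact hf u v w (Finset.mem_filter.1 (Finset.mem_coe.1 hv)).2
          (Finset.mem_filter.1 (Finset.mem_coe.1 hw)).2 hne hvw
      simpa using h1
  refine Pool.TF.main_theorem G G.maxDegree ?_
    (Finset.univ.filter (fun v => G.maxDegree + 2 < 2 * G.degree v)) ?_ ?_
  · intro u
    convert G.degree_le_maxDegree u using 1
    convert hdeg u
  · intro u hu
    have h1 : ¬ (G.maxDegree + 2 < 2 * G.degree u) := fun h2 => hu (by simpa using h2)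
    have h2 := hdeg u
    refine le_trans (Nat.mul_le_mul_left 2 (le_of_eq ?_)) (not_lt.1 h1)
    convert h2
  · rcases Nat.lt_or_ge G.maxDegree q with h | h
    · exact Or.inl (key 5 (by norm_num) (hk.mono (by omega)))
    · have hqe : q = G.maxDegree := le_antisymm h hge
      subst hqe
      exact Or.inr ⟨key 6 (by norm_num) (hk.mono (by omega)), hq⟩

end Pool.Agent.Results.MP_aaba26_co.FiveColourable
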