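import Pool.Agent.Helper3.TCM.All

/-!
The bound `Δ + 3` for the total chromatic number of every graph whose chromatic number is at most
`Δ / (2 ^ 80 (log₂ Δ) ^ 10)`; only the vertices of degree larger than `(Δ + 2) / 2` matter.
-/

namespace Pool.Agent.Results.MP_aaba26_co.SmallChromatic

open Pool.TC

theorem result {V : Type*} [Fintype V] (G : SimpleGraph V) [DecidableRel G.Adj] (k : ℕ)
    (hk : 2 ^ 80 * k * Nat.log 2 G.maxDegree ^ 10 ≤ G.maxDegree)
    (hG : (G.induce {v | G.maxDegree + 2 < 2 * G.degree v}).Colorable k) :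
    ∃ (c : V → Fin (G.maxDegree + 3)) (e : Sym2 V → Fin (G.maxDegree + 3)),
      IsTotalColouring G c e := by
  classical
  have hdeg : ∀ u, (Finset.univ.filter (fun v => G.Adj u v)).card = G.degree u := by
    intro u
    rw [← SimpleGraph.card_neighborFinset_eq_degree]
    congr 1
    ext v
    simp
  obtain ⟨C0⟩ := hG
  by_cases hk0 : k = 0
  · -- no heavy vertices
    subst hk0
    have hno : ∀ v, ¬ (G.maxDegree + 2 < 2 * G.degree v) := fun v hv => (C0 ⟨v, hv⟩).elim0
    refine total_colouring G (d := G.maxDegree) ?_ ?_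
    · intro u
      convert G.degree_le_maxDegree u using 1
      convert hdeg u
    · refine le_trans (le_of_eq ?_) (Nat.zero_le _)
      rw [Finset.card_eq_zero, Finset.filter_eq_empty_iff]
      intro u _ h
      refine hno u ?_
      rw [← hdeg u]
      convert h
  · have hk1 : 0 < k := Nat.pos_of_ne_zero hk0
    let C : V → Fin k := fun v =>
      if h : G.maxDegree + 2 < 2 * G.degree v then C0 ⟨v, h⟩ else ⟨0, hk1⟩
    refine Pool.TCM.total_three G G.maxDegree k ?_ hk C ?_
    · intro u
      convert G.degree_le_maxDegree u using 1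
      convert hdeg u
    · intro u v huv hu hv
      have hu' : G.maxDegree + 2 < 2 * G.degree u := by
        rw [← hdeg u]; convert hu
      have hv' : G.maxDegree + 2 < 2 * G.degree v := by
        rw [← hdeg v]; convert hv
      simp only [C, hu', hv', dif_pos]
      exact C0.valid (show (G.induce {v | G.maxDegree + 2 < 2 * G.degree v}).Adj ⟨u, hu'⟩ ⟨v, hv'⟩
        from huv)

end Pool.Agent.Results.MP_aaba26_co.SmallChromatic
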